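import Mathlib

namespace Pool.Agent.H.MP_cb17ae_an

open Set Filter Topology MeasureTheory
open scoped ContDiff

noncomputable def J (l : ℝ) (k : ℕ) (f : ℝ → ℂ) (x : ℝ) : ℂ :=
  ∫ t in (0 : ℝ)..1, t ^ k • f (l + t * (x - l))

lemma J_deriv (l : ℝ) (k : ℕ) {f : ℝ → ℂ} (hf : ContDiff ℝ ∞ f) (x : ℝ) :
    HasDerivAt (J l k f) (J l (k + 1) (deriv f) x) x := by
  obtain ⟨h1, h2⟩ := contDiff_infty_iff_deriv.1 hf
  have c1 := h1.continuous
  have c2 := h2.continuous
  obtain ⟨C, hC⟩ := ((isCompact_closedBall x 1).prod (isCompact_uIcc (a := (0 : ℝ)) (b := 1)))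
    |>.exists_bound_of_continuousOn (f := fun p : ℝ × ℝ => p.2 ^ (k + 1) •
      deriv f (l + p.2 * (p.1 - l))) (by fun_prop)
  refine (intervalIntegral.hasDerivAt_integral_of_dominated_loc_of_deriv_le
    (F := fun x t => t ^ k • f (l + t * (x - l)))
    (F' := fun x t => t ^ (k + 1) • deriv f (l + t * (x - l))) (bound := fun _ => C)
    (Metric.closedBall_mem_nhds x one_pos) (.of_forall fun _ => by fun_prop)
    (Continuous.intervalIntegrable (by fun_prop) _ _) (by fun_prop)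
    (.of_forall fun t ht y hy => hC (y, t) ⟨hy, uIoc_subset_uIcc ht⟩) intervalIntegrable_const
    (.of_forall fun t _ y _ => ?_)).2
  exact (((h1 _).hasDerivAt.scomp y ((((hasDerivAt_id y).sub_const l).const_mul t).const_add
    l)).const_smul (t ^ k)).congr_deriv (by simp [pow_succ, mul_assoc])

lemma J_iter (l : ℝ) (n : ℕ) : ∀ (k : ℕ) {f : ℝ → ℂ}, ContDiff ℝ ∞ f →
    ContDiff ℝ n (J l k f) ∧ iteratedDeriv n (J l k f) = J l (k + n) (iteratedDeriv n f) := by
  induction n with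
  | zero =>
    exact fun k f hf => ⟨contDiff_zero.2 (continuous_iff_continuousAt.2 fun x =>
      (J_deriv l k hf x).continuousAt), by simp⟩
  | succ n ih =>
    intro k f hf
    have e : deriv (J l k f) = J l (k + 1) (deriv f) := funext fun x => (J_deriv l k hf x).deriv
    have := ih (k + 1) (contDiff_infty_iff_deriv.1 hf).2
    refine ⟨contDiff_succ_iff_deriv.2 ⟨fun x => (J_deriv l k hf x).differentiableAt, by simp,
      e ▸ this.1⟩, ?_⟩
    rw [iteratedDeriv_succ', e, this.2, iteratedDeriv_succ', add_assoc, add_comm 1]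

lemma had {l : ℝ} (hl : l ∈ Icc (0 : ℝ) 1) {f : ℝ → ℂ} (hf : ContDiff ℝ ∞ f) :
    ∃ g : ℝ → ℂ, ContDiff ℝ ∞ g ∧ (∀ x, f x = f l + (x - l) * g x) ∧ ∀ k M,
      (∀ x ∈ Icc (0 : ℝ) 1, ‖iteratedDeriv (k + 1) f x‖ ≤ M) →
        ∀ x ∈ Icc (0 : ℝ) 1, ‖iteratedDeriv k g x‖ ≤ M := by
  obtain ⟨h1, h2⟩ := contDiff_infty_iff_deriv.1 hf
  have c2 := h2.continuous
  refine ⟨J l 0 (deriv f), contDiff_infty.2 fun n => (J_iter l n 0 h2).1, fun x => ?_,
    fun k M h x hx => ?_⟩
  · have := intervalIntegral.integral_eq_sub_of_hasDerivAt (a := 0) (b := 1)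
      (f := fun t => f (l + t * (x - l))) (f' := fun t => (x - l) • deriv f (l + t * (x - l)))
      (fun t _ => ((h1 _).hasDerivAt.scomp t
          (((hasDerivAt_id t).mul_const (x - l)).const_add l)).congr_deriv (by simp))
      (Continuous.intervalIntegrable (by fun_prop) _ _)
    rw [intervalIntegral.integral_smul] at this
    simp only [J, pow_zero, one_smul]
    rw [← Complex.ofReal_sub, ← Complex.real_smul, this]
    simp
  · rw [(J_iter l k 0 h2).2, ← iteratedDeriv_succ']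
    refine (intervalIntegral.norm_integral_le_of_norm_le_const fun t ht => ?_).trans_eq
      (show M * |(1 : ℝ) - 0| = M by simp)
    rw [uIoc_of_le zero_le_one] at ht
    rw [norm_smul, Real.norm_of_nonneg (pow_nonneg ht.1.le _)]
    exact (mul_le_of_le_one_left (norm_nonneg _) (pow_le_one₀ ht.1.le ht.2)).trans
      (h _ ⟨by nlinarith [ht.1, ht.2, hl.1, hx.1], by nlinarith [ht.1, ht.2, hl.2, hx.2]⟩)

variable {B : Type} [NormedCommRing B] [NormedAlgebra ℂ B] [CompleteSpace B]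

lemma stab {t : B} (h : ∀ b : B, ∃ (c : ℂ) (b' : B), b = c • 1 + t * b')
    (u : ∀ r : ℝ, r ≠ 0 → IsUnit (t - (r * Complex.I) • 1)) : ∃ n v, t ^ n * (1 - t * v) = 0 := by
  by_contra! H
  obtain ⟨C, C0, hC⟩ := ((ContinuousLinearMap.toSpanSingleton ℂ (1 : B)).coprod
    (ContinuousLinearMap.mul ℂ B t)).exists_preimage_norm_le fun b =>
      (h b).elim fun c e => e.elim fun b' e => ⟨(c, b'), by simpa using e.symm⟩
  obtain ⟨w, hw⟩ := (u (1 / (2 * C)) (by positivity)).exists_right_inv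
  obtain ⟨δ, e, d⟩ : ∃ δ : ℂ, ((1 / (2 * C) : ℝ) * Complex.I) = δ ∧ ‖δ‖ * C = 1 / 2 :=
    ⟨_, rfl, by
      rw [norm_mul, Complex.norm_I, Complex.norm_real, Real.norm_of_nonneg (by positivity)]
      field_simp⟩
  rw [e] at hw
  have P : ∀ k, ∃ z, ‖z‖ ≤ ‖w‖ * (1 / 2) ^ k ∧ t ^ k * (1 - (t - δ • 1) * z) = 0 := fun k => by
    induction k with
    | zero => exact ⟨w, by simp, by simp [hw]⟩
    | succ k ih =>
      obtain ⟨z, z1, z2⟩ := ih
      obtain ⟨⟨c, y⟩, rfl, hy⟩ := hC z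
      refine ⟨δ • y, ?_, ?_⟩
      · rw [norm_smul]
        refine (mul_le_mul_of_nonneg_left (((norm_snd_le (c, y)).trans hy).trans
          (mul_le_mul_of_nonneg_left z1 C0.le)) (norm_nonneg δ)).trans_eq ?_
        rw [← mul_assoc, d]
        ring
      simp only [ContinuousLinearMap.coprod_apply, ContinuousLinearMap.toSpanSingleton_apply,
        ContinuousLinearMap.mul_apply', Algebra.smul_def, mul_one] at z2 ⊢
      by_cases c0 : 1 + δ * c = 0
      · have := congrArg (algebraMap ℂ B) c0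
        rw [map_add, map_mul, map_one, map_zero] at this
        linear_combination algebraMap ℂ B δ * z2 + (t ^ (k + 1) - t ^ k * algebraMap ℂ B δ) * this
      · have := congrArg (algebraMap ℂ B) (inv_mul_cancel₀ c0)
        rw [map_mul, map_add, map_mul, map_one] at this
        refine absurd ?_ (H k (algebraMap ℂ B (1 + δ * c)⁻¹ *
          (algebraMap ℂ B c + (t - algebraMap ℂ B δ) * y)))
        linear_combination algebraMap ℂ B (1 + δ * c)⁻¹ * z2 - t ^ k * this
  obtain ⟨k, hk⟩ := ((((tendsto_pow_atTop_nhds_zero_of_lt_one (r := (1 / 2 : ℝ)) (by norm_num)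
    (by norm_num)).const_mul ‖w‖).const_mul ‖t - δ • 1‖).eventually
      (gt_mem_nhds (by simp : _ < (1 : ℝ)))).exists
  obtain ⟨z, z1, z2⟩ := P k
  exact H k 0 (by simpa using (isUnit_one_sub_of_norm_lt_one (((norm_mul_le _ _).trans
    (mul_le_mul_of_nonneg_left z1 (norm_nonneg _))).trans_lt hk)).mul_left_eq_zero.1 z2)

theorem top {a : B} (h : ∀ l ∈ Icc (0 : ℝ) 1, ∀ b : B, ∃ (c : ℂ) (b' : B),
      b = c • 1 + (a - (l : ℂ) • 1) * b')
    (u : ∀ μ : ℂ, (∀ l ∈ Icc (0 : ℝ) 1, μ ≠ l) → IsUnit (a - μ • 1)) (G : Ideal B)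
    (hG : ∀ l ∈ Icc (0 : ℝ) 1, ∀ b, (a - (l : ℂ) • 1) * b ∈ G → b ∈ G) : G = ⊤ := by
  by_contra n
  obtain ⟨M, hM, le⟩ := G.exists_le_maximal n
  set χ := M.toCharacterSpace
  obtain ⟨l, hl, e⟩ : ∃ l ∈ Icc (0 : ℝ) 1, χ a = l := by
    by_contra! c
    simpa using (u _ c).map χ
  obtain ⟨n, v, hv⟩ := stab (h l hl) fun r r0 => by
    rw [sub_sub, ← add_smul]
    exact u _ fun l' _ e => r0 (by simpa using congrArg Complex.im e)
  have : ∀ n b, (a - (l : ℂ) • 1) ^ n * b ∈ G → b ∈ G := fun n => by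
    induction n with
    | zero => simp
    | succ n ih => exact fun b hb => ih b (hG l hl _ (by rwa [← mul_assoc, ← pow_succ']))
  have := M.toCharacterSpace_apply_eq_zero_of_mem (le (this n _ (hv ▸ G.zero_mem)))
  simp [← e, χ] at this

end Pool.Agent.H.MP_cb17ae_an
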